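import Pool.Agent.H60.CM.Basic

/-!
# Stable surfaces of constant mean curvature spanning a circle: module CON (continuity)
-/

set_option autoImplicit false

open Set Function MeasureTheory Filter Topology
open scoped Manifold ContDiff Matrix

namespace Pool.Agent.H48.CM

open Pool.Agent.H60.CM

section

variable (D : Dat)

/-- the derivative, as a linear map of the parameter plane -/
noncomputable def MF {F : Type} [NormedAddCommGroup F] [NormedSpace ℝ F] (f : D.S → F)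
    (q : D.S) : E2 →L[ℝ] F := mfderiv (𝓡∂ 2) 𝓘(ℝ, F) f q

theorem MF_dd {F : Type} [NormedAddCommGroup F] [NormedSpace ℝ F] (f : D.S → F)
    (q : D.S) (i : Fin 2) : MF D f q (ee i) = dd f q i := rfl

/-- the derivative in the tangent coordinates at `p0` -/
noncomputable def TD {F : Type} [NormedAddCommGroup F] [NormedSpace ℝ F] (f : D.S → F)
    (p0 p : D.S) : E2 →L[ℝ] F :=
  inTangentCoordinates (𝓡∂ 2) 𝓘(ℝ, F) id f (MF D f) p0 p

/-- the change of coordinates -/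
noncomputable def AA (p0 p : D.S) : E2 →L[ℝ] E2 :=
  (tangentBundleCore (𝓡∂ 2) D.S).coordChange (achart (EuclideanHalfSpace 2) p0)
    (achart (EuclideanHalfSpace 2) p) p

theorem TD_cont {F : Type} [NormedAddCommGroup F] [NormedSpace ℝ F] {f : D.S → F}
    (hf : D.Sm f) (p0 : D.S) : ContinuousAt (TD D f p0) p0 := by
  have h1 : ContMDiffAt (𝓡∂ 2) 𝓘(ℝ, E2 →L[ℝ] F) 0
      (inTangentCoordinates (𝓡∂ 2) 𝓘(ℝ, F) id f (mfderiv (𝓡∂ 2) 𝓘(ℝ, F) f) p0) p0 :=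
    ContMDiffAt.mfderiv_const (hf p0) (by simp)
  exact h1.continuousAt

theorem TD_eq {F : Type} [NormedAddCommGroup F] [NormedSpace ℝ F] (f : D.S → F) {p0 p : D.S}
    (hp : p ∈ (chartAt (EuclideanHalfSpace 2) p0).source) (v : E2) :
    TD D f p0 p v = MF D f p (AA D p0 p v) := by
  have h1 := inTangentCoordinates_eq (I := 𝓡∂ 2) (I' := 𝓘(ℝ, F)) (M := D.S) (M' := F) (H' := F) id f
    (MF D f) (x₀ := p0) (x := p) hp (by rw [chartAt_self_eq]; exact mem_univ _)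
  unfold TD AA
  rw [h1, tangentBundleCore_coordChange_model_space]
  rfl

theorem ee_sum (v : E2) : v = v 0 • ee 0 + v 1 • ee 1 := by
  ext i
  fin_cases i <;> simp [ee]

theorem TD_dd {F : Type} [NormedAddCommGroup F] [NormedSpace ℝ F] (f : D.S → F) {p0 p : D.S}
    (hp : p ∈ (chartAt (EuclideanHalfSpace 2) p0).source) (i : Fin 2) :
    TD D f p0 p (ee i) = (AA D p0 p (ee i)) 0 • dd f p 0 + (AA D p0 p (ee i)) 1 • dd f p 1 := by
  rw [TD_eq D f hp]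
  conv_lhs => rw [ee_sum (AA D p0 p (ee i))]
  rw [map_add, map_smul, map_smul, MF_dd, MF_dd]

theorem TD_self {F : Type} [NormedAddCommGroup F] [NormedSpace ℝ F] (f : D.S → F) (p0 : D.S)
    (i : Fin 2) : TD D f p0 p0 (ee i) = dd f p0 i := by
  rw [TD_eq D f (mem_chart_source _ p0), ← MF_dd]
  have h1 : AA D p0 p0 (ee i) = ee i :=
    (tangentBundleCore (𝓡∂ 2) D.S).coordChange_self _ p0 (mem_chart_source _ p0) _
  rw [h1]

/-- the cross product of two combinations -/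
theorem cross_comb (a0 a1 : V3) (m00 m01 m10 m11 : ℝ) :
    (m00 • a0 + m01 • a1) ⨯₃ (m10 • a0 + m11 • a1) = (m00 * m11 - m01 * m10) • (a0 ⨯₃ a1) := by
  ext i
  fin_cases i <;>
    simp [cross_apply] <;> ring

/-- the determinant of the change of coordinates does not vanish near `p0` -/
theorem det_ev (p0 : D.S) : ∀ᶠ p in 𝓝 p0,
    (AA D p0 p (ee 0)) 0 * (AA D p0 p (ee 1)) 1 - (AA D p0 p (ee 0)) 1 * (AA D p0 p (ee 1)) 0 ≠
      0 := by
  have h1 := TD_cont D D.smx p0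
  have h2 : ContinuousAt (fun p => TD D D.x p0 p (ee 0) ⨯₃ TD D D.x p0 p (ee 1)) p0 := by
    have h3 : ∀ i, ContinuousAt (fun p => TD D D.x p0 p (ee i)) p0 := fun i =>
      h1.clm_apply continuousAt_const
    have h4 : ∀ i k, ContinuousAt (fun p => TD D D.x p0 p (ee i) k) p0 := fun i k =>
      (continuousAt_pi.1 (h3 i)) k
    rw [continuousAt_pi]
    intro k
    fin_cases k
    · exact ((h4 0 1).mul (h4 1 2)).sub ((h4 0 2).mul (h4 1 1))
    · exact ((h4 0 2).mul (h4 1 0)).sub ((h4 0 0).mul (h4 1 2))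
    · exact ((h4 0 0).mul (h4 1 1)).sub ((h4 0 1).mul (h4 1 0))
  have h5 : TD D D.x p0 p0 (ee 0) ⨯₃ TD D D.x p0 p0 (ee 1) ≠ 0 := by
    rw [TD_self, TD_self]
    exact D.cmc.imm p0
  have h6 := h2.eventually_ne h5
  have h7 : ∀ᶠ p in 𝓝 p0, p ∈ (chartAt (EuclideanHalfSpace 2) p0).source :=
    (chartAt (EuclideanHalfSpace 2) p0).open_source.mem_nhds (mem_chart_source _ p0)
  filter_upwards [h6, h7] with p hp hp2 h8
  apply hp
  rw [TD_dd D D.x hp2, TD_dd D D.x hp2, cross_comb, h8, zero_smul]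

/-- the evaluations of the derivative are continuous -/
theorem TD_ev {F : Type} [NormedAddCommGroup F] [NormedSpace ℝ F] {f : D.S → F}
    (hf : D.Sm f) (p0 : D.S) (i : Fin 2) : ContinuousAt (fun p => TD D f p0 p (ee i)) p0 :=
  (TD_cont D hf p0).clm_apply continuousAt_const

theorem cross_ca {a b : D.S → V3} {p0 : D.S} (ha : ContinuousAt a p0) (hb : ContinuousAt b p0) :
    ContinuousAt (fun p => a p ⨯₃ b p) p0 := by
  have ha' := continuousAt_pi.1 ha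
  have hb' := continuousAt_pi.1 hb
  rw [continuousAt_pi]
  intro k
  fin_cases k
  · exact ((ha' 1).mul (hb' 2)).sub ((ha' 2).mul (hb' 1))
  · exact ((ha' 2).mul (hb' 0)).sub ((ha' 0).mul (hb' 2))
  · exact ((ha' 0).mul (hb' 1)).sub ((ha' 1).mul (hb' 0))

theorem dot_ca {a b : D.S → V3} {p0 : D.S} (ha : ContinuousAt a p0) (hb : ContinuousAt b p0) :
    ContinuousAt (fun p => a p ⬝ᵥ b p) p0 := by
  have ha' := continuousAt_pi.1 ha
  have hb' := continuousAt_pi.1 hb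
  simp only [Matrix.vec3_dotProduct]
  exact (((ha' 0).mul (hb' 0)).add ((ha' 1).mul (hb' 1))).add ((ha' 2).mul (hb' 2))

theorem dot_ne {w : V3} (h : w ≠ 0) : w ⬝ᵥ w ≠ 0 := by
  intro h0
  exact h (dotProduct_self_eq_zero.1 h0)

/-- the normal is parallel to the cross product -/
theorem cross_N (p : D.S) : (dd D.x p 0 ⨯₃ dd D.x p 1) ⬝ᵥ D.N p ≠ 0 := by
  have h1 := D.cmc.unit p
  have h2 := D.cmc.normal p 0
  have h3 := D.cmc.normal p 1
  have h4 := dot_ne (D.cmc.imm p)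
  obtain ⟨a, ha⟩ : ∃ a, a = dd D.x p 0 := ⟨_, rfl⟩
  obtain ⟨b, hb⟩ : ∃ b, b = dd D.x p 1 := ⟨_, rfl⟩
  obtain ⟨n, hn⟩ : ∃ n, n = D.N p := ⟨_, rfl⟩
  rw [← ha, ← hb] at h4 ⊢
  rw [← hn] at h1 h2 h3 ⊢
  rw [← ha] at h2
  rw [← hb] at h3
  intro h5
  apply h4
  have e : (a ⨯₃ b) ⬝ᵥ (a ⨯₃ b) * (n ⬝ᵥ n) = ((a ⨯₃ b) ⬝ᵥ n) ^ 2 +
      (b ⬝ᵥ b * (n ⬝ᵥ a) ^ 2 - 2 * (a ⬝ᵥ b) * (n ⬝ᵥ a) * (n ⬝ᵥ b) +
        a ⬝ᵥ a * (n ⬝ᵥ b) ^ 2) := by
    simp only [Matrix.vec3_dotProduct, cross_apply, Matrix.cons_val_zero, Matrix.cons_val_one,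
      Matrix.cons_val]
    ring
  rw [h1, h5, h2, h3] at e
  linarith

theorem bil_ca {a0 a1 : D.S → V3} {f0 f1 g0 g1 : D.S → ℝ} {p0 : D.S}
    (h1 : ContinuousAt a0 p0) (h2 : ContinuousAt a1 p0) (h3 : ContinuousAt f0 p0)
    (h4 : ContinuousAt f1 p0) (h5 : ContinuousAt g0 p0) (h6 : ContinuousAt g1 p0)
    (h7 : a0 p0 ⨯₃ a1 p0 ≠ 0) :
    ContinuousAt (fun p => bil (a0 p) (a1 p) (f0 p) (f1 p) (g0 p) (g1 p)) p0 := by
  unfold bil
  refine ContinuousAt.div (dot_ca D ((h3.smul h2).sub (h4.smul h1))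
    ((h5.smul h2).sub (h6.smul h1))) (dot_ca D (cross_ca D h1 h2) (cross_ca D h1 h2)) ?_
  exact dot_ne h7

theorem brk_ca {a0 a1 n : D.S → V3} {f0 f1 g0 g1 : D.S → ℝ} {p0 : D.S}
    (h1 : ContinuousAt a0 p0) (h2 : ContinuousAt a1 p0) (h3 : ContinuousAt f0 p0)
    (h4 : ContinuousAt f1 p0) (h5 : ContinuousAt g0 p0) (h6 : ContinuousAt g1 p0)
    (h8 : ContinuousAt n p0) (h7 : (a0 p0 ⨯₃ a1 p0) ⬝ᵥ n p0 ≠ 0) :
    ContinuousAt (fun p => brk (a0 p) (a1 p) (n p) (f0 p) (f1 p) (g0 p) (g1 p)) p0 := by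
  unfold brk
  exact ContinuousAt.div ((h3.mul h6).sub (h4.mul h5)) (dot_ca D (cross_ca D h1 h2) h8) h7

end

theorem pf_CON (h1 : T_INV) : T_CON := by
  intro D f g hf hg
  have hsrc : ∀ p0 : D.S, ∀ᶠ p in 𝓝 p0, p ∈ (chartAt (EuclideanHalfSpace 2) p0).source :=
    fun p0 => (chartAt (EuclideanHalfSpace 2) p0).open_source.mem_nhds (mem_chart_source _ p0)
  have hx0 : ∀ p0, TD D D.x p0 p0 (ee 0) ⨯₃ TD D D.x p0 p0 (ee 1) ≠ 0 := fun p0 => by
    rw [TD_self, TD_self]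
    exact D.cmc.imm p0
  have hN0 : ∀ p0, (TD D D.x p0 p0 (ee 0) ⨯₃ TD D D.x p0 p0 (ee 1)) ⬝ᵥ D.N p0 ≠ 0 := fun p0 => by
    rw [TD_self, TD_self]
    exact cross_N D p0
  constructor
  · rw [continuous_iff_continuousAt]
    intro p0
    have h2 := bil_ca D (TD_ev D D.smx p0 0) (TD_ev D D.smx p0 1) (TD_ev D hf p0 0)
      (TD_ev D hf p0 1) (TD_ev D hg p0 0) (TD_ev D hg p0 1) (hx0 p0)
    refine h2.congr ?_
    filter_upwards [det_ev D p0, hsrc p0] with p hp hp2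
    rw [TD_dd D D.x hp2, TD_dd D D.x hp2, TD_dd D f hp2, TD_dd D f hp2, TD_dd D g hp2,
      TD_dd D g hp2]
    exact (h1 _ _ (D.N p) _ _ _ _ _ _ _ _ hp).1
  · rw [continuous_iff_continuousAt]
    intro p0
    have h2 := brk_ca D (TD_ev D D.smx p0 0) (TD_ev D D.smx p0 1) (TD_ev D hf p0 0)
      (TD_ev D hf p0 1) (TD_ev D hg p0 0) (TD_ev D hg p0 1)
      (Dat.Sm.cont D D.smN).continuousAt (hN0 p0)
    refine h2.congr ?_
    filter_upwards [det_ev D p0, hsrc p0] with p hp hp2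
    rw [TD_dd D D.x hp2, TD_dd D D.x hp2, TD_dd D f hp2, TD_dd D f hp2, TD_dd D g hp2,
      TD_dd D g hp2]
    exact (h1 _ _ (D.N p) _ _ _ _ _ _ _ _ hp).2

end Pool.Agent.H48.CM
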