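import Pool.Agent.H60.CM.Basic

/-!
# Stable surfaces of constant mean curvature spanning a circle: module FIX (the two halves are
dense)
-/

set_option autoImplicit false

open Set Function MeasureTheory Filter Topology
open scoped Manifold ContDiff Matrix

namespace Pool.Agent.H48.CM

open Pool.Agent.H60.CM

theorem rot_zero (y : V3) : rot 0 y = y := by
  unfold rot
  ext i
  fin_cases i <;> simp

theorem mir_one {y : V3} (h : y = mir y) : y 1 = 0 := by
  have h1 := congrFun h 1
  have h2 : mir y 1 = -y 1 := rfl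
  rw [h2] at h1
  linarith

/-- the algebra: two independent vectors in a plane and a unit vector orthogonal to both -/
theorem plane_alg {a b n : V3} (h : a ⨯₃ b ≠ 0) (hn : n ⬝ᵥ n = 1) (ha : n ⬝ᵥ a = 0)
    (hb : n ⬝ᵥ b = 0) (a1 : a 1 = 0) (b1 : b 1 = 0) (n1 : n 1 = 0) : False := by
  rw [Matrix.vec3_dotProduct] at hn ha hb
  rw [a1] at ha
  rw [b1] at hb
  rw [n1] at hn
  have h1 : n 0 * (a 2 * b 0 - a 0 * b 2) = 0 := by
    linear_combination a 2 * hb - b 2 * ha
  have h2 : n 2 * (a 2 * b 0 - a 0 * b 2) = 0 := by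
    linear_combination b 0 * ha - a 0 * hb
  have h3 : a 2 * b 0 - a 0 * b 2 ≠ 0 := by
    intro h4
    apply h
    ext i
    fin_cases i
    · simp [cross_apply, a1, b1]
    · simp [cross_apply, h4]
    · simp [cross_apply, a1, b1]
  have h5 := (mul_eq_zero.1 h1).resolve_right h3
  have h6 := (mul_eq_zero.1 h2).resolve_right h3
  rw [h5, h6] at hn
  norm_num at hn

theorem pf_FIX (h1 : T_DNI) (h2 : T_SGN) : T_FIX := by
  intro D τ A hinv hmir hA
  rw [dense_iff_inter_open]
  intro U hU hUn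
  by_contra hcon
  have hU' : (U ∩ D.int).Nonempty := (h1 D).inter_open_nonempty U hU hUn
  have hno : ∀ p ∈ U ∩ D.int, τ p = p := by
    intro p hp
    by_contra h3
    exact hcon ⟨p, hp.1, hp.2, (hA.cover p).1 h3⟩
  obtain ⟨p, hp⟩ := hU'
  have hopen : IsOpen (U ∩ D.int) := hU.inter D.int_open
  have hN := h2 D τ 0 (fun q => by rw [rot_zero]; exact hmir q)
  have hx1 : ∀ q ∈ U ∩ D.int, D.x q 1 = 0 := fun q hq => mir_one (by
    have h3 := hmir q
    rw [hno q hq] at h3
    exact h3)
  have hN1 : D.N p 1 = 0 := mir_one (by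
    have h3 := hN p
    rw [hno p hp, rot_zero] at h3
    exact h3)
  have hdd : ∀ i, dd D.x p i 1 = 0 := by
    intro i
    rw [← dd_coord (Dat.Sm.md D D.smx p) 1 i, dd_congr (g := fun _ => (0 : ℝ)) (by
      filter_upwards [hopen.mem_nhds hp] with q hq
      exact hx1 q hq), dd_const]
  exact plane_alg (D.cmc.imm p) (D.cmc.unit p) (D.cmc.normal p 0) (D.cmc.normal p 1) (hdd 0)
    (hdd 1) hN1

end Pool.Agent.H48.CM
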