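import Pool.Agent.H48.CM.FIX

/-!
# Stable surfaces of constant mean curvature spanning a circle: module ZCO (the surface is totally
umbilic)
-/

set_option autoImplicit false

open Set Function MeasureTheory Filter Topology
open scoped Manifold ContDiff Matrix

namespace Pool.Agent.H48.CM

open Pool.Agent.H60.CM

theorem pf_ZCO (h1 : T_HZR) (h2 : T_UMB) (h3 : T_SYM) (h4 : T_LCS) (h5 : T_FIX) (h6 : T_SGN)
    (h7 : T_DNI) : T_ZCO := by
  intro Y hu hfi
  obtain ⟨D, hD⟩ : ∃ D : Dat, D = Y.toDat := ⟨_, rfl⟩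
  have mdx := fun p => Dat.Sm.md Y.toDat Y.toDat.smx p
  have mdN := fun p => Dat.Sm.md Y.toDat Y.toDat.smN p
  -- derivatives of the rotation function
  have hu0 : ∀ p, (e3 ⨯₃ Y.x p) ⬝ᵥ Y.N p = 0 := by
    intro p
    have h8 := hu p
    unfold Dat.u kf at h8
    rw [zero_add] at h8
    exact h8
  have hdu : ∀ p i, (e3 ⨯₃ dd Y.x p i) ⬝ᵥ Y.N p + (e3 ⨯₃ Y.x p) ⬝ᵥ dd Y.N p i = 0 := by
    intro p i
    have h8 := dd_kf (mdx p) (mdN p) 0 e3 i
    rw [zero_add] at h8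
    rw [← h8]
    have h9 : kf Y.x Y.N 0 e3 = fun _ => (0 : ℝ) := funext fun q => hu q
    rw [h9, dd_const]
  have hint : ∀ p ∈ Y.int, Y.N p 0 + Y.H * Y.x p 0 = 0 ∧ Y.N p 1 + Y.H * Y.x p 1 = 0 := by
    intro p hp
    exact h1 _ _ _ _ _ _ (h3 Y.toDat p hp) (Y.x p) (hu0 p) (hdu p 0) (hdu p 1) (hfi p)
  have cx : ∀ k, Continuous fun p => Y.x p k := fun k =>
    Dat.Sm.cont Y.toDat (Dat.Sm.coord Y.toDat Y.toDat.smx k)
  have cN : ∀ k, Continuous fun p => Y.N p k := fun k =>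
    Dat.Sm.cont Y.toDat (Dat.Sm.coord Y.toDat Y.toDat.smN k)
  have cg : ∀ k, Continuous fun p => Y.N p k + Y.H * Y.x p k := fun k =>
    (cN k).add (continuous_const.mul (cx k))
  have hall : ∀ k : Fin 3, (∀ p ∈ Y.int, Y.N p k + Y.H * Y.x p k = 0) →
      ∀ p, Y.N p k + Y.H * Y.x p k = 0 := by
    intro k hk p
    have h8 := Continuous.ext_on (h7 Y.toDat) (cg k) (continuous_const (y := (0 : ℝ)))
      (fun q hq => hk q hq)
    exact congrFun h8 p
  have h0 := hall 0 fun p hp => (hint p hp).1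
  have h1' := hall 1 fun p hp => (hint p hp).2
  -- derivatives
  have hder : ∀ (k : Fin 3) p i, dd (fun q => Y.N q k + Y.H * Y.x q k) p i =
      dd Y.N p i k + Y.H * dd Y.x p i k := by
    intro k p i
    have mx := (mdx p).coord k
    have mN := (mdN p).coord k
    rw [dd_add mN ((md_const _ p).mul mx), dd_const_mul mx, dd_coord (mdN p), dd_coord (mdx p)]
  have hd0 : ∀ p i, dd Y.N p i 0 + Y.H * dd Y.x p i 0 = 0 := by
    intro p i
    rw [← hder 0 p i, show (fun q => Y.N q 0 + Y.H * Y.x q 0) = fun _ => (0 : ℝ) from funext h0,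
      dd_const]
  have hd1 : ∀ p i, dd Y.N p i 1 + Y.H * dd Y.x p i 1 = 0 := by
    intro p i
    rw [← hder 1 p i, show (fun q => Y.N q 1 + Y.H * Y.x q 1) = fun _ => (0 : ℝ) from funext h1',
      dd_const]
  have hd2 : ∀ p ∈ Y.int, ∀ i, dd (fun q => Y.N q 2 + Y.H * Y.x q 2) p i = 0 := by
    intro p hp i
    have h8 := h2 _ _ _ _ _ _ (h3 Y.toDat p hp) (hd0 p 0) (hd1 p 0) (hd0 p 1) (hd1 p 1)
    rw [hder 2 p i]
    fin_cases i
    · have h9 := congrFun h8.1 2
      exact h9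
    · have h9 := congrFun h8.2 2
      exact h9
  obtain ⟨g, hg⟩ : ∃ g : Y.S → ℝ, g = fun q => Y.N q 2 + Y.H * Y.x q 2 := ⟨_, rfl⟩
  have gsm : Y.Sm g := by
    rw [hg]
    exact Dat.Sm.add Y.toDat (Dat.Sm.coord Y.toDat Y.toDat.smN 2)
      (Dat.Sm.const_mul Y.toDat (Dat.Sm.coord Y.toDat Y.toDat.smx 2) Y.H)
  have gc : Continuous g := Dat.Sm.cont Y.toDat gsm
  rw [← hg] at hd2
  have hAint : IsOpen (Y.A ∩ Y.int) := Y.half.isOpen.inter Y.toDat.int_open
  have hconst := h4 Y.toDat g (Y.A ∩ Y.int) gsm hAint inter_subset_right Y.conn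
    (fun p hp i => hd2 p hp.2 i)
  -- the value on the half
  have hz : ∃ z : ℝ, ∀ p ∈ Y.A, g p = z := by
    by_cases hne : (Y.A ∩ Y.int).Nonempty
    · obtain ⟨q, hq⟩ := hne
      refine ⟨g q, fun p hp => ?_⟩
      have h8 : p ∈ closure (Y.A ∩ Y.int) :=
        (h7 Y.toDat).open_subset_closure_inter Y.half.isOpen hp
      have h9 : closure (Y.A ∩ Y.int) ⊆ {p | g p = g q} :=
        closure_minimal (fun p' hp' => hconst p' hp' q hq) (isClosed_eq gc continuous_const)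
      exact h9 h8
    · refine ⟨0, fun p hp => ?_⟩
      exfalso
      have h8 : p ∈ closure (Y.A ∩ Y.int) :=
        (h7 Y.toDat).open_subset_closure_inter Y.half.isOpen hp
      rw [Set.not_nonempty_iff_eq_empty.1 hne, closure_empty] at h8
      exact h8
  obtain ⟨z, hz⟩ := hz
  have hN := h6 Y.toDat Y.τ 0 (fun q => by rw [rot_zero]; exact Y.mirr q)
  have hτ : ∀ p, g (Y.τ p) = g p := by
    intro p
    have e1 := congrFun (Y.mirr p) 2
    have e2 := congrFun (hN p) 2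
    rw [rot_zero] at e2
    have e3 : mir (Y.x p) 2 = Y.x p 2 := rfl
    have e4 : mir (Y.N p) 2 = Y.N p 2 := rfl
    rw [hg]
    change Y.N (Y.τ p) 2 + Y.H * Y.x (Y.τ p) 2 = Y.N p 2 + Y.H * Y.x p 2
    rw [e1, e3]
    have e5 : Y.N (Y.τ p) 2 = Y.N p 2 := e2
    rw [e5]
  have hgz : ∀ p, g p = z := by
    intro p
    have h8 := h5 Y.toDat Y.τ Y.A Y.inv Y.mirr Y.half
    have h9 := Continuous.ext_on h8 gc (continuous_const (y := z)) (fun q hq => by
      rcases hq.2 with h10 | h10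
      · exact hz q h10
      · exact (hτ q).symm.trans (hz _ h10))
    exact congrFun h9 p
  refine ⟨z, fun p => ?_⟩
  ext k
  fin_cases k
  · exact h0 p
  · exact h1' p
  · have h8 := hgz p
    rw [hg] at h8
    exact h8

end Pool.Agent.H48.CM
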